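import Pool.Agent.Run7.h92.JG.Stm

set_option autoImplicit false

namespace Pool.Agent.Run7.h591.JG

open Complex
open UpperHalfPlane hiding I
open Pool.Agent.Run7.h92.JG

theorem t_NZ : S_UNIQ → S_NZ := by
  intro hU n M τ hs
  by_contra hcon
  push Not at hcon
  set c : (Fin n → ℝ) → ℂ := fun v => tt M τ 0 v with hc
  have h1 : Summable c := hs 0
  have hterm : ∀ (u v : Fin n → ℝ), tt M τ (fun i => (u i : ℂ)) v = c v * e (ip v u : ℝ) := by
    intro u v
    simp only [hc]
    unfold tt
    by_cases hv : v ∈ (M : Set (Fin n → ℝ))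
    · rw [Set.indicator_of_mem hv, Set.indicator_of_mem hv]
      unfold e
      rw [← Complex.exp_add]
      congr 1
      unfold pr ip
      simp only [Pi.zero_apply, mul_zero, Finset.sum_const_zero, add_zero]
      push_cast
      ring
    · rw [Set.indicator_of_notMem hv, Set.indicator_of_notMem hv, zero_mul]
  have h2 : ∀ u : Fin n → ℝ, ∑' l, c l * e (ip l u : ℝ) = 0 := by
    intro u
    have := hcon (fun i => (u i : ℂ))
    unfold th at this
    rw [← this]
    exact tsum_congr (fun l => (hterm u l).symm)
  have h3 := hU n c h1 h2 0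
  have h4 : c 0 = 1 := by
    simp only [hc]
    unfold tt
    rw [Set.indicator_of_mem (show (0 : Fin n → ℝ) ∈ (M : Set (Fin n → ℝ)) from M.zero_mem)]
    unfold e pr ip
    simp
  rw [h4] at h3
  exact one_ne_zero h3

end Pool.Agent.Run7.h591.JG
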