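import Pool.Agent.Run7.h92.JG.Stm

set_option autoImplicit false

namespace Pool.Agent.Run7.h591.JG

open Pool.Agent.Run7.h92.JG

theorem t_PROD : S_PROD := by
  intro n
  induction n with
  | zero =>
    intro g _
    refine ⟨(hasSum_unique _).summable, ?_⟩
    rw [(hasSum_unique (fun v : Fin 0 → ℤ => ∏ i, g i (v i))).tsum_eq]
    simp
  | succ n ih =>
    intro g hg
    obtain ⟨h1, h2⟩ := ih (fun i => g i.succ) (fun i => hg i.succ)
    have key : ∀ p : ℤ × (Fin n → ℤ), ∏ i, g i (Fin.consEquiv (fun _ => ℤ) p i) =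
        g 0 p.1 * ∏ i : Fin n, g i.succ (p.2 i) := by
      intro p
      rw [Fin.prod_univ_succ]
      simp [Fin.consEquiv]
    have hs : Summable (fun p : ℤ × (Fin n → ℤ) => ‖g 0 p.1‖ * ‖∏ i : Fin n, g i.succ (p.2 i)‖) :=
      (hg 0).mul_of_nonneg h1 (fun _ => norm_nonneg _) (fun _ => norm_nonneg _)
    constructor
    · rw [← (Fin.consEquiv (fun _ => ℤ)).summable_iff]
      refine hs.congr (fun p => ?_)
      simp only [Function.comp]
      rw [key, norm_mul]
    · rw [← (Fin.consEquiv (fun _ => ℤ)).tsum_eq, Fin.prod_univ_succ, ← h2,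
        tsum_mul_tsum_of_summable_norm (hg 0) h1]
      exact tsum_congr key

end Pool.Agent.Run7.h591.JG
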