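import Pool.Agent.Run7.h92.JG.Stm

set_option autoImplicit false

namespace Pool.Agent.Run7.h591.JG

open Pool.Agent.Run7.h92.JG

theorem t_SPAN : S_SPAN := by
  intro n
  rw [Submodule.eq_top_iff']
  have hmem : ∀ i : Fin n, (Pi.single i (4 : ℝ) : Fin n → ℝ) ∈ Llat n := by
    intro i
    refine ⟨⟨Or.inl fun k => ?_, 2, ?_⟩, ?_⟩
    · by_cases h : k = i
      · subst h; exact ⟨4, by simp⟩
      · exact ⟨0, by simp [Pi.single_eq_of_ne h]⟩
    · rw [Finset.sum_pi_single' i (4 : ℝ)]
      simp
      norm_num
    · unfold t4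
      by_cases h : i.val < 4
      · refine ⟨2, ?_⟩
        rw [Finset.sum_eq_single i]
        · simp [h]; norm_num
        · intro b _ hb
          simp [Pi.single_eq_of_ne hb]
        · intro hi; exact absurd (Finset.mem_univ i) hi
      · refine ⟨0, ?_⟩
        rw [Finset.sum_eq_zero]
        · simp
        · intro b _
          by_cases hb : b = i
          · subst hb; simp [h]
          · simp [Pi.single_eq_of_ne hb]
  intro x
  have hx : x = ∑ i, (x i / 4) • (Pi.single i (4 : ℝ) : Fin n → ℝ) := by
    funext k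
    rw [Finset.sum_apply, Finset.sum_eq_single k]
    · simp
    · intro b _ hb
      simp [Pi.single_eq_of_ne (Ne.symm hb)]
    · intro hk; exact absurd (Finset.mem_univ k) hk
  rw [hx]
  exact Submodule.sum_mem _ (fun i _ => Submodule.smul_mem _ _ (Submodule.subset_span (hmem i)))

end Pool.Agent.Run7.h591.JG
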