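import Pool.Agent.Run7.h92.JG.Stm

set_option autoImplicit false

namespace Pool.Agent.Run7.h591.JG

open Complex MatrixGroups ModularGroup
open UpperHalfPlane hiding I
open Pool.Agent.Run7.h92.JG

lemma coe_S (τ : ℍ) : ((S • τ : ℍ) : ℂ) = -1 / (τ : ℂ) := by
  rw [UpperHalfPlane.modular_S_smul]
  show (-(τ : ℂ))⁻¹ = -1 / (τ : ℂ)
  rw [inv_neg, neg_div, one_div]

theorem t_THS : S_TPROD → S_VTS → S_THS := by
  intro hP hV j hj τ z
  have hτ0 : (τ : ℂ) ≠ 0 := UpperHalfPlane.ne_zero τ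
  have hn : 0 < 8 * j := by omega
  have he : Even (8 * j) := ⟨4 * j, by ring⟩
  have key : ∀ a b : ℕ, a ≤ 1 → b ≤ 1 →
      ∏ i, vt a b (-1 / τ) (z i / τ) = (τ : ℂ) ^ (4 * j) * e (qd z / (2 * τ)) * ∏ i, vt b a τ (z i) := by
    intro a b ha hb
    obtain ⟨ζ, hζ, h⟩ := hV a b ha hb
    have h1 : ∀ i : Fin (8 * j), vt a b (-1 / τ) (z i / τ) =
        (ζ * (-I * τ) ^ (1 / 2 : ℂ)) * (e (z i ^ 2 / (2 * τ)) * vt b a τ (z i)) := by
      intro i
      rw [h τ (z i)]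
      ring
    rw [Finset.prod_congr rfl (fun i _ => h1 i), Finset.prod_mul_distrib, Finset.prod_const,
      Finset.card_univ, Fintype.card_fin, Finset.prod_mul_distrib]
    have h2 : ∏ i, e (z i ^ 2 / (2 * (τ : ℂ))) = e (qd z / (2 * τ)) := by
      unfold e qd
      rw [← Complex.exp_sum]
      congr 1
      rw [← Finset.mul_sum, Finset.sum_div]
    have h3 : (ζ * (-I * (τ : ℂ)) ^ (1 / 2 : ℂ)) ^ (8 * j) = (τ : ℂ) ^ (4 * j) := by
      have h4 : ((-I * (τ : ℂ)) ^ (1 / 2 : ℂ)) ^ 2 = -I * τ := by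
        rw [← Complex.cpow_nat_mul]
        norm_num
      have h5 : (ζ * (-I * (τ : ℂ)) ^ (1 / 2 : ℂ)) ^ 8 = (τ : ℂ) ^ 4 := by
        have : (ζ * (-I * (τ : ℂ)) ^ (1 / 2 : ℂ)) ^ 8 =
            (ζ ^ 4) ^ 2 * (((-I * (τ : ℂ)) ^ (1 / 2 : ℂ)) ^ 2) ^ 4 := by ring
        rw [this, hζ, h4, mul_pow, neg_pow, I_pow_four]
        ring
      rw [pow_mul, h5, ← pow_mul]
    rw [h2, h3]
    ring
  rw [hP _ hn he, hP _ hn he, coe_S]
  rw [key 0 0 (by norm_num) (by norm_num), key 0 1 (by norm_num) (by norm_num),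
    key 1 0 (by norm_num) (by norm_num), key 1 1 (by norm_num) (by norm_num)]
  rw [zpow_natCast]
  ring

end Pool.Agent.Run7.h591.JG
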