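import Pool.Agent.Run7.h92.JG.Stm

set_option autoImplicit false

namespace Pool.Agent.Run7.h591.JG

open Complex
open Pool.Agent.Run7.h92.JG

lemma vt_term (a b : ℕ) (τ z : ℂ) (m : ℤ) :
    e (((m : ℂ) + a / 2) ^ 2 * τ / 2 + ((m : ℂ) + a / 2) * (z + b / 2)) =
      e ((a : ℂ) ^ 2 * τ / 8 + a / 2 * (z + b / 2)) *
        jacobiTheta₂_term m (z + b / 2 + a * τ / 2) τ := by
  unfold e jacobiTheta₂_term
  rw [← Complex.exp_add]
  congr 1
  ring

theorem t_VT : S_VT := by
  intro a b τ z hτ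
  have hs := hasSum_jacobiTheta₂_term (z + b / 2 + a * τ / 2) hτ
  constructor
  · have : Summable (fun m : ℤ => e ((a : ℂ) ^ 2 * τ / 8 + a / 2 * (z + b / 2)) *
        jacobiTheta₂_term m (z + b / 2 + a * τ / 2) τ) := (hs.mul_left _).summable
    rw [summable_norm_iff]
    refine this.congr (fun m => ?_)
    rw [vt_term]
  · unfold vt
    simp only [vt_term]
    exact (hs.mul_left _).tsum_eq

end Pool.Agent.Run7.h591.JG
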