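import Pool.Agent.Run7.h92.JG.Stm

set_option autoImplicit false

namespace Pool.Agent.Run7.h591.JG

open Complex
open UpperHalfPlane hiding I
open Pool.Agent.Run7.h92.JG

theorem t_VTS : S_VT → S_VTS := by
  intro hVT a b ha hb
  refine ⟨e (-((a : ℂ) * b / 4)), ?_, ?_⟩
  · unfold e
    rw [← Complex.exp_nat_mul]
    rw [Complex.exp_eq_one_iff]
    refine ⟨-((a : ℤ) * b), ?_⟩
    push_cast
    ring
  · intro τ z
    have hτ : 0 < (τ : ℂ).im := τ.im_pos
    have hτ0 : (τ : ℂ) ≠ 0 := UpperHalfPlane.ne_zero τ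
    have hτ' : 0 < (-1 / (τ : ℂ)).im := by
      have h1 : (-1 / (τ : ℂ)) = -(τ : ℂ)⁻¹ := by rw [neg_div, one_div]
      rw [h1, Complex.neg_im, Complex.inv_im]
      have : 0 < Complex.normSq (τ : ℂ) := Complex.normSq_pos.2 hτ0
      have h2 : -(-(τ : ℂ).im / Complex.normSq (τ : ℂ)) = (τ : ℂ).im / Complex.normSq (τ : ℂ) := by ring
      rw [h2]
      positivity
    rw [(hVT a b _ _ hτ').2, (hVT b a _ _ hτ).2]
    set w : ℂ := z + b * τ / 2 - a / 2 with hw
    have hper : jacobiTheta₂ (z + a / 2 + b * τ / 2) τ = jacobiTheta₂ w τ := by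
      have h1 : z + a / 2 + b * τ / 2 = w + a := by rw [hw]; ring
      rw [h1]
      interval_cases a
      · simp
      · simp only [Nat.cast_one]
        exact jacobiTheta₂_add_left _ _
    have hf := jacobiTheta₂_functional_equation w τ
    have hsq : (-I * (τ : ℂ)) ^ (1 / 2 : ℂ) ≠ 0 := by
      rw [Complex.cpow_ne_zero_iff_of_exponent_ne_zero (by norm_num)]
      exact mul_ne_zero (neg_ne_zero.2 I_ne_zero) hτ0
    have harg : z / τ + b / 2 + a * (-1 / (τ : ℂ)) / 2 = w / τ := by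
      rw [hw]; field_simp; ring
    rw [harg, hper, hf]
    have hE : e ((a : ℂ) ^ 2 * (-1 / (τ : ℂ)) / 8 + a / 2 * (z / τ + b / 2)) =
        e (-((a : ℂ) * b / 4)) * e (z ^ 2 / (2 * τ)) * e ((b : ℂ) ^ 2 * τ / 8 + b / 2 * (z + a / 2)) *
          cexp (-Real.pi * I * w ^ 2 / τ) := by
      unfold e
      rw [← Complex.exp_add, ← Complex.exp_add, ← Complex.exp_add]
      congr 1
      rw [hw]
      field_simp
      ring
    rw [hE]
    field_simp

end Pool.Agent.Run7.h591.JG
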